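import Pool.Agent.H5.FL.Stm2

set_option autoImplicit false

open MeasureTheory ProbabilityTheory Filter Topology

namespace H50.FL

open H5.FL

theorem t_COT : S_COT := by
  intro N μ i F hF hK
  obtain ⟨K, hK⟩ := hK
  have hK0 : 0 ≤ K := (abs_nonneg _).trans (hK 0).1
  have hx : ∀ (x τ : Fin N → ℝ) (j : Fin N),
      (fun s => (fun y : (Fin N → ℝ) × (Fin N → ℝ) => F (y.1 i)) (Function.update x j s, τ)) =
        if j = i then F else fun _ => F (x i) := by
    intro x τ j
    funext s
    by_cases h : j = i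
    · subst h
      simp
    · simp [h, Function.update_of_ne (Ne.symm h)]
  have hτ : ∀ (x τ : Fin N → ℝ) (j : Fin N),
      (fun s : ℝ => (fun y : (Fin N → ℝ) × (Fin N → ℝ) => F (y.1 i)) (x, Function.update τ j s)) =
        fun _ => F (x i) := fun x τ j => rfl
  have hi2 : ∀ (G : ℝ → ℝ) (y : ℝ), iteratedDeriv 2 G y = deriv (deriv G) y := by
    intro G y
    rw [iteratedDeriv_succ, iteratedDeriv_one]
  refine ⟨⟨?_, K, ?_⟩, ?_, ?_⟩
  · exact hF.comp ((contDiff_apply ℝ ℝ i).comp contDiff_fst)
  · intro x τ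
    refine ⟨(hK _).1, fun j => ?_⟩
    rw [hx x τ j, hτ x τ j, hi2]
    by_cases h : j = i
    · simp only [h, if_true]
      exact ⟨(hK _).2.1, (hK _).2.2, by simpa using hK0⟩
    · simp only [h, if_false]
      simp [hK0]
  · intro x τ j hit _ h
    unfold gen
    rw [hx x τ j, hτ x τ j, hi2]
    simp [h]
  · refine ⟨(1 / 2) * K + |μ| * K, fun x τ j hit _ => ?_⟩
    unfold gen
    rw [hx x τ j, hτ x τ j, hi2]
    by_cases h : j = i
    · simp only [h, if_true, deriv_const, add_zero]
      have h1 := (hK (x i)).2.1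
      have h2 := (hK (x i)).2.2
      have h3 : |(1 / 2) * deriv (deriv F) (x i)| ≤ (1 / 2) * K := by
        rw [abs_mul, abs_of_pos (by norm_num : (0 : ℝ) < 1 / 2)]
        exact mul_le_mul_of_nonneg_left h2 (by norm_num)
      have h4 : |(if hit then μ else 0) * deriv F (x i)| ≤ |μ| * K := by
        rw [abs_mul]
        refine mul_le_mul ?_ h1 (abs_nonneg _) (abs_nonneg _)
        split_ifs
        · exact le_rfl
        · simp
      exact (abs_add_le _ _).trans (add_le_add h3 h4)
    · simp only [h, if_false]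
      simp
      positivity

end H50.FL
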