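import Pool.Agent.H5.FL.Stm2

set_option autoImplicit false

open MeasureTheory ProbabilityTheory Filter Topology

namespace H50.FL

open H5.FL

theorem iter2 (G : ℝ → ℝ) (y : ℝ) : iteratedDeriv 2 G y = deriv (deriv G) y := by
  rw [iteratedDeriv_succ, iteratedDeriv_one]

section

variable {χ : ℝ → ℝ}

theorem hasDerivAt_V (C c μ s : ℝ) :
    HasDerivAt (fun s => 1 - C * Real.exp (-(μ * s - c)))
      (μ * (1 - (1 - C * Real.exp (-(μ * s - c))))) s := by
  have h1 : HasDerivAt (fun s : ℝ => -(μ * s - c)) (-(μ * 1)) s :=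
    (((hasDerivAt_id s).const_mul μ).sub_const c).neg
  exact (((h1.exp).const_mul C).const_sub 1).congr_deriv (by ring)

theorem hasDerivAt_T (C c μ s : ℝ) :
    HasDerivAt (fun s => 1 - C * Real.exp (-(c - (1 / 2) * μ ^ 2 * s)))
      (-(1 / 2) * μ ^ 2 * (1 - (1 - C * Real.exp (-(c - (1 / 2) * μ ^ 2 * s))))) s := by
  have h1 : HasDerivAt (fun s : ℝ => -(c - (1 / 2) * μ ^ 2 * s)) (-(-((1 / 2) * μ ^ 2 * 1))) s :=
    (((hasDerivAt_id s).const_mul ((1 / 2) * μ ^ 2)).const_sub c).neg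
  exact (((h1.exp).const_mul C).const_sub 1).congr_deriv (by ring)

theorem hasDerivAt_1 (hχ : ContDiff ℝ 2 χ) (C c μ s : ℝ) :
    HasDerivAt (fun s => χ (1 - C * Real.exp (-(μ * s - c))))
      (deriv χ (1 - C * Real.exp (-(μ * s - c))) *
        (μ * (1 - (1 - C * Real.exp (-(μ * s - c)))))) s :=
  ((hχ.differentiable (by norm_num) _).hasDerivAt).comp s (hasDerivAt_V C c μ s)

theorem hasDerivAt_2 (hχ : ContDiff ℝ 2 χ) (C c μ s : ℝ) :
    HasDerivAt (fun s => deriv χ (1 - C * Real.exp (-(μ * s - c))) *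
        (μ * (1 - (1 - C * Real.exp (-(μ * s - c))))))
      (deriv (deriv χ) (1 - C * Real.exp (-(μ * s - c))) *
        (μ * (1 - (1 - C * Real.exp (-(μ * s - c))))) ^ 2 -
        deriv χ (1 - C * Real.exp (-(μ * s - c))) *
          (μ ^ 2 * (1 - (1 - C * Real.exp (-(μ * s - c)))))) s := by
  have hd : ContDiff ℝ 1 (deriv χ) := by
    have : ContDiff ℝ (1 + 1) χ := by
      have h : (1 : WithTop ℕ∞) + 1 = 2 := by norm_num
      rw [h]; exact hχ
    exact (contDiff_succ_iff_deriv.1 this).2.2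
  have h1 := ((hd.differentiable (by norm_num) _).hasDerivAt).comp s (hasDerivAt_V C c μ s)
  have h2 := ((hasDerivAt_V C c μ s).const_sub 1).const_mul μ
  exact (h1.mul h2).congr_deriv (by simp only [Function.comp_apply]; ring)

end

/-- derivatives in the coordinate `a` -/
theorem key {C η μ : ℝ} (hχ : ContDiff ℝ 2 (chi η)) {N : ℕ} {a b : Fin N} (hab : a ≠ b)
    (x τ : Fin N → ℝ) :
    deriv (fun s => uu C η μ a b (Function.update x a s, τ)) (x a) =
      deriv (chi η) (vv C μ (x, τ) a) * (μ * (1 - vv C μ (x, τ) a)) * chi η (vv C μ (x, τ) b) ∧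
    iteratedDeriv 2 (fun s => uu C η μ a b (Function.update x a s, τ)) (x a) =
      (deriv (deriv (chi η)) (vv C μ (x, τ) a) * (μ * (1 - vv C μ (x, τ) a)) ^ 2 -
        deriv (chi η) (vv C μ (x, τ) a) * (μ ^ 2 * (1 - vv C μ (x, τ) a))) *
        chi η (vv C μ (x, τ) b) ∧
    deriv (fun s => uu C η μ a b (x, Function.update τ a s)) (τ a) =
      deriv (chi η) (vv C μ (x, τ) a) * (-(1 / 2) * μ ^ 2 * (1 - vv C μ (x, τ) a)) *
        chi η (vv C μ (x, τ) b) := by
  have e1 : (fun s => uu C η μ a b (Function.update x a s, τ)) = fun s =>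
      chi η (1 - C * Real.exp (-(μ * s - (1 / 2) * μ ^ 2 * τ a))) * chi η (vv C μ (x, τ) b) := by
    funext s
    unfold uu vv lin
    simp only [Function.update_self, Function.update_of_ne (Ne.symm hab)]
  have e2 : (fun s => uu C η μ a b (x, Function.update τ a s)) = fun s =>
      chi η (1 - C * Real.exp (-(μ * x a - (1 / 2) * μ ^ 2 * s))) * chi η (vv C μ (x, τ) b) := by
    funext s
    unfold uu vv lin
    simp only [Function.update_self, Function.update_of_ne (Ne.symm hab)]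
  have hv : vv C μ (x, τ) a = 1 - C * Real.exp (-(μ * x a - (1 / 2) * μ ^ 2 * τ a)) := rfl
  have d1 : deriv (fun s => uu C η μ a b (Function.update x a s, τ)) = fun s =>
      deriv (chi η) (1 - C * Real.exp (-(μ * s - (1 / 2) * μ ^ 2 * τ a))) *
        (μ * (1 - (1 - C * Real.exp (-(μ * s - (1 / 2) * μ ^ 2 * τ a))))) *
          chi η (vv C μ (x, τ) b) := by
    funext s
    rw [e1]
    exact ((hasDerivAt_1 hχ C ((1 / 2) * μ ^ 2 * τ a) μ s).mul_const _).deriv
  refine ⟨?_, ?_, ?_⟩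
  · rw [d1, hv]
  · rw [iter2, d1, hv]
    exact ((hasDerivAt_2 hχ C ((1 / 2) * μ ^ 2 * τ a) μ (x a)).mul_const _).deriv
  · rw [e2, hv]
    exact ((((hχ.differentiable (by norm_num) _).hasDerivAt).comp (τ a)
      (hasDerivAt_T C (μ * x a) μ (τ a))).mul_const _).deriv

theorem uu_comm {N : ℕ} (C η μ : ℝ) (a b : Fin N) : uu C η μ a b = uu C η μ b a := by
  funext y
  unfold uu
  ring

theorem key0 {C η μ : ℝ} {N : ℕ} {a b j : Fin N} (ha : j ≠ a) (hb : j ≠ b)
    (x τ : Fin N → ℝ) :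
    deriv (fun s => uu C η μ a b (Function.update x j s, τ)) (x j) = 0 ∧
    iteratedDeriv 2 (fun s => uu C η μ a b (Function.update x j s, τ)) (x j) = 0 ∧
    deriv (fun s => uu C η μ a b (x, Function.update τ j s)) (τ j) = 0 := by
  have e1 : (fun s => uu C η μ a b (Function.update x j s, τ)) = fun _ =>
      uu C η μ a b (x, τ) := by
    funext s
    unfold uu vv lin
    simp only [Function.update_of_ne (Ne.symm ha), Function.update_of_ne (Ne.symm hb)]
  have e2 : (fun s => uu C η μ a b (x, Function.update τ j s)) = fun _ =>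
      uu C η μ a b (x, τ) := by
    funext s
    unfold uu vv lin
    simp only [Function.update_of_ne (Ne.symm ha), Function.update_of_ne (Ne.symm hb)]
  rw [e1, e2, iter2]
  simp

theorem t_UUT (hCHI : S_CHI) : S_UUT := by
  intro N C η μ hC hη a b hab
  obtain ⟨hχ, hb1, hb2, hb3, hb4, ⟨K, hK⟩, hb5, hb6⟩ := hCHI η hη
  have hK0 : 0 ≤ K := (abs_nonneg _).trans (hK 0)
  have hvlt : ∀ (y : (Fin N → ℝ) × (Fin N → ℝ)) (c : Fin N), vv C μ y c < 1 := by
    intro y c
    unfold vv
    have := mul_pos hC (Real.exp_pos (-(lin μ y c)))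
    linarith
  have hchi1 : ∀ (y : (Fin N → ℝ) × (Fin N → ℝ)) (c : Fin N), chi η (vv C μ y c) ≤ 1 := by
    intro y c
    refine (hb1 _).2.trans (max_le (hvlt y c).le zero_le_one)
  have hchi0 : ∀ (y : (Fin N → ℝ) × (Fin N → ℝ)) (c : Fin N), 0 ≤ chi η (vv C μ y c) :=
    fun y c => (hb1 _).1
  -- `0 ≤ χ'(v)(1 - v) ≤ 2`
  have hq : ∀ v : ℝ, v < 1 → 0 ≤ deriv (chi η) v * (1 - v) ∧ deriv (chi η) v * (1 - v) ≤ 2 := by
    intro v hv
    rcases le_total v 0 with h | h
    · rw [(hb4 v h).1, zero_mul]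
      norm_num
    · have h1 := hb3 v
      refine ⟨mul_nonneg h1.1 (by linarith), ?_⟩
      nlinarith
  have hq2 : ∀ v : ℝ, v < 1 → |deriv (deriv (chi η)) v * (1 - v) ^ 2| ≤ K := by
    intro v hv
    rcases le_total v 0 with h | h
    · rw [(hb4 v h).2, zero_mul, abs_zero]
      exact hK0
    · have h1 := hK v
      rw [abs_mul, abs_of_nonneg (sq_nonneg (1 - v))]
      have h2 : (1 - v) ^ 2 ≤ 1 := by nlinarith
      calc _ ≤ K * 1 := mul_le_mul h1 h2 (sq_nonneg _) hK0
        _ = K := mul_one K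
  -- bounds in the coordinate `a`
  have hbd : ∀ a b : Fin N, a ≠ b → ∀ x τ : Fin N → ℝ,
      |deriv (fun s => uu C η μ a b (Function.update x a s, τ)) (x a)| ≤
        2 * |μ| + μ ^ 2 * (K + 2) + 1 ∧
      |iteratedDeriv 2 (fun s => uu C η μ a b (Function.update x a s, τ)) (x a)| ≤
        2 * |μ| + μ ^ 2 * (K + 2) + 1 ∧
      |deriv (fun s => uu C η μ a b (x, Function.update τ a s)) (τ a)| ≤
        2 * |μ| + μ ^ 2 * (K + 2) + 1 := by
    intro a b hab x τ
    obtain ⟨k1, k2, k3⟩ := key (C := C) (μ := μ) hχ hab x τ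
    rw [k1, k2, k3]
    set v := vv C μ (x, τ) a with hv
    set k := chi η (vv C μ (x, τ) b) with hk
    have hk0 : 0 ≤ k := hchi0 _ _
    have hk1 : k ≤ 1 := hchi1 _ _
    have hv1 : v < 1 := hvlt _ _
    have h1 := hq v hv1
    have h2 := hq2 v hv1
    have hμ : 0 ≤ |μ| := abs_nonneg μ
    have hμ2 : 0 ≤ μ ^ 2 := sq_nonneg μ
    set A := deriv (chi η) v * (1 - v) with hA
    set B := deriv (deriv (chi η)) v * (1 - v) ^ 2 with hB
    have hkabs : |k| ≤ 1 := by rw [abs_of_nonneg hk0]; exact hk1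
    have hAabs : |A| ≤ 2 := by rw [abs_of_nonneg h1.1]; exact h1.2
    refine ⟨?_, ?_, ?_⟩
    · have e : deriv (chi η) v * (μ * (1 - v)) * k = μ * A * k := by rw [hA]; ring
      rw [e, abs_mul, abs_mul]
      have h3 : |μ| * |A| * |k| ≤ |μ| * 2 * 1 :=
        mul_le_mul (mul_le_mul_of_nonneg_left hAabs hμ) hkabs (abs_nonneg _) (by positivity)
      have h4 : 0 ≤ μ ^ 2 * (K + 2) := by positivity
      linarith
    · have e : (deriv (deriv (chi η)) v * (μ * (1 - v)) ^ 2 - deriv (chi η) v *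
          (μ ^ 2 * (1 - v))) * k = μ ^ 2 * (B - A) * k := by rw [hA, hB]; ring
      rw [e, abs_mul, abs_mul, abs_of_nonneg hμ2]
      have h3 : |B - A| ≤ K + 2 := (abs_sub B A).trans (add_le_add h2 hAabs)
      have h4 : μ ^ 2 * |B - A| * |k| ≤ μ ^ 2 * (K + 2) * 1 :=
        mul_le_mul (mul_le_mul_of_nonneg_left h3 hμ2) hkabs (abs_nonneg _) (by positivity)
      linarith
    · have e : deriv (chi η) v * (-(1 / 2) * μ ^ 2 * (1 - v)) * k = (-(1 / 2)) * (μ ^ 2 * A * k) := by
        rw [hA]; ring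
      rw [e, abs_mul, abs_mul, abs_mul, abs_of_nonneg hμ2]
      have h3 : μ ^ 2 * |A| * |k| ≤ μ ^ 2 * 2 * 1 :=
        mul_le_mul (mul_le_mul_of_nonneg_left hAabs hμ2) hkabs (abs_nonneg _) (by positivity)
      have h4 : |(-(1 / 2) : ℝ)| = 1 / 2 := by norm_num
      rw [h4]
      have h5 : 0 ≤ μ ^ 2 * K := by positivity
      nlinarith
  -- the generator in the coordinate `a`
  have hgen : ∀ a b : Fin N, a ≠ b → ∀ (x τ : Fin N → ℝ) (hit : Prop) [Decidable hit],
      lin μ (x, τ) b ≤ lin μ (x, τ) a →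
      gen μ (uu C η μ a b) x τ a hit ≤ (1 / 2) * μ ^ 2 * wEr η (vv C μ (x, τ) a) := by
    intro a b hab x τ hit _ hle
    unfold gen
    obtain ⟨k1, k2, k3⟩ := key (C := C) (μ := μ) hχ hab x τ
    rw [k1, k2, k3]
    have hvab : vv C μ (x, τ) b ≤ vv C μ (x, τ) a := by
      unfold vv
      have : Real.exp (-(lin μ (x, τ) a)) ≤ Real.exp (-(lin μ (x, τ) b)) :=
        Real.exp_le_exp.2 (by linarith)
      nlinarith
    have h5 := hb5 _ _ hvab
    set v := vv C μ (x, τ) a with hv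
    set k := chi η (vv C μ (x, τ) b) with hk
    have hk0 : 0 ≤ k := hchi0 _ _
    have hk1 : k ≤ 1 := hchi1 _ _
    have hv1 : v < 1 := hvlt _ _
    have h1 := hq v hv1
    have hμ2 : 0 ≤ μ ^ 2 := sq_nonneg μ
    have hw := (hb6 v).1
    have e1 : (1 / 2) * ((deriv (deriv (chi η)) v * (μ * (1 - v)) ^ 2 - deriv (chi η) v *
        (μ ^ 2 * (1 - v))) * k) + μ * (deriv (chi η) v * (μ * (1 - v)) * k) +
        deriv (chi η) v * (-(1 / 2) * μ ^ 2 * (1 - v)) * k =
        (1 / 2) * μ ^ 2 * (deriv (deriv (chi η)) v * k * (1 - v) ^ 2) := by ring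
    have e2 : (1 / 2) * ((deriv (deriv (chi η)) v * (μ * (1 - v)) ^ 2 - deriv (chi η) v *
        (μ ^ 2 * (1 - v))) * k) + 0 * (deriv (chi η) v * (μ * (1 - v)) * k) +
        deriv (chi η) v * (-(1 / 2) * μ ^ 2 * (1 - v)) * k =
        (1 / 2) * μ ^ 2 * (deriv (deriv (chi η)) v * k * (1 - v) ^ 2) -
          μ ^ 2 * ((deriv (chi η) v * (1 - v)) * k) := by ring
    have e3 : deriv (deriv (chi η)) v * k * (1 - v) ^ 2 ≤ wEr η v := by
      rcases le_total v 0 with h | h
      · rw [(hb4 v h).2, zero_mul, zero_mul]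
        exact hw
      · have h6 : (1 - v) ^ 2 ≤ 1 := by nlinarith
        rcases le_total 0 (deriv (deriv (chi η)) v * k) with h7 | h7
        · calc _ ≤ deriv (deriv (chi η)) v * k * 1 := mul_le_mul_of_nonneg_left h6 h7
            _ ≤ _ := by rw [mul_one]; exact h5
        · have : deriv (deriv (chi η)) v * k * (1 - v) ^ 2 ≤ 0 :=
            mul_nonpos_of_nonpos_of_nonneg h7 (sq_nonneg _)
          linarith
    have e4 : (1 / 2) * μ ^ 2 * (deriv (deriv (chi η)) v * k * (1 - v) ^ 2) ≤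
        (1 / 2) * μ ^ 2 * wEr η v := mul_le_mul_of_nonneg_left e3 (by positivity)
    split_ifs
    · rw [e1]
      exact e4
    · rw [e2]
      have : 0 ≤ μ ^ 2 * ((deriv (chi η) v * (1 - v)) * k) :=
        mul_nonneg hμ2 (mul_nonneg h1.1 hk0)
      linarith
  constructor
  · constructor
    · unfold uu
      have hlin : ∀ c : Fin N, ContDiff ℝ 2 (fun y : (Fin N → ℝ) × (Fin N → ℝ) => vv C μ y c) := by
        intro c
        unfold vv lin
        have h1 : ContDiff ℝ 2 (fun y : (Fin N → ℝ) × (Fin N → ℝ) => y.1 c) :=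
          (contDiff_apply ℝ ℝ c).comp contDiff_fst
        have h2 : ContDiff ℝ 2 (fun y : (Fin N → ℝ) × (Fin N → ℝ) => y.2 c) :=
          (contDiff_apply ℝ ℝ c).comp contDiff_snd
        exact contDiff_const.sub (contDiff_const.mul (Real.contDiff_exp.comp
          ((contDiff_const.mul h1).sub (contDiff_const.mul h2)).neg))
      exact (hχ.comp (hlin a)).mul (hχ.comp (hlin b))
    · refine ⟨2 * |μ| + μ ^ 2 * (K + 2) + 1, fun x τ => ⟨?_, fun j => ?_⟩⟩
      · unfold uu
        rw [abs_mul, abs_of_nonneg (hchi0 _ _), abs_of_nonneg (hchi0 _ _)]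
        have h1 : chi η (vv C μ (x, τ) a) * chi η (vv C μ (x, τ) b) ≤ 1 * 1 :=
          mul_le_mul (hchi1 _ _) (hchi1 _ _) (hchi0 _ _) zero_le_one
        have h2 : 0 ≤ |μ| := abs_nonneg _
        have h3 : 0 ≤ μ ^ 2 * (K + 2) := by positivity
        linarith
      · by_cases hja : j = a
        · subst hja
          exact hbd j b hab x τ
        · by_cases hjb : j = b
          · subst hjb
            rw [uu_comm]
            exact hbd j a (Ne.symm hab) x τ
          · obtain ⟨k1, k2, k3⟩ := key0 (C := C) (η := η) (μ := μ) hja hjb x τ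
            rw [k1, k2, k3, abs_zero]
            have h2 : 0 ≤ |μ| := abs_nonneg _
            have h3 : 0 ≤ μ ^ 2 * (K + 2) := by positivity
            refine ⟨by linarith, by linarith, by linarith⟩
  · intro x τ j hit _ h1 h2
    by_cases hja : j = a
    · subst hja
      exact hgen j b hab x τ hit h2
    · by_cases hjb : j = b
      · subst hjb
        rw [uu_comm]
        exact hgen j a (Ne.symm hab) x τ hit h1
      · obtain ⟨k1, k2, k3⟩ := key0 (C := C) (η := η) (μ := μ) hja hjb x τ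
        unfold gen
        rw [k1, k2, k3]
        have := (hb6 (vv C μ (x, τ) j)).1
        have : 0 ≤ (1 / 2) * μ ^ 2 * wEr η (vv C μ (x, τ) j) := by positivity
        simpa using this

end H50.FL
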